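import Pool.Agent.Helper24.HW.Stmts

set_option autoImplicit false

namespace Pool.Agent.Helper24.HW

open Pool.Agent.Helper24.HWPub

theorem DEN_aux (m : ℕ) (hm : 1 ≤ m) (e : ℤ) (h2 : e ≤ 2) (n : ℕ)
    (hn : n = ⌊((6 * m + 1 : ℝ) + Real.sqrt ((6 * m + 1 : ℝ) ^ 2 - 24 * (e : ℝ))) / 2⌋₊) :
    (e : ℝ) ≤ m * n - n * (n - 1) / 6 := by
  have hm' : (1 : ℝ) ≤ m := by exact_mod_cast hm
  have he' : (e : ℝ) ≤ 2 := by exact_mod_cast h2
  set D := Real.sqrt ((6 * m + 1 : ℝ) ^ 2 - 24 * (e : ℝ)) with hD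
  have h1 : (1 : ℝ) ≤ (6 * m + 1 : ℝ) ^ 2 - 24 * (e : ℝ) := by nlinarith
  have hD1 : 1 ≤ D := by
    rw [hD]
    exact Real.one_le_sqrt.mpr h1
  have hDsq : D ^ 2 = (6 * m + 1 : ℝ) ^ 2 - 24 * (e : ℝ) := Real.sq_sqrt (by linarith)
  set x := ((6 * m + 1 : ℝ) + D) / 2 with hx
  have hx0 : 0 ≤ x := by rw [hx]; positivity
  have hnx : (n : ℝ) ≤ x := by rw [hn]; exact Nat.floor_le hx0
  have hxn : x < (n : ℝ) + 1 := by rw [hn]; exact Nat.lt_floor_add_one x
  have hDx : D = 2 * x - (6 * m + 1) := by rw [hx]; ring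
  have key : (m * n - n * (n - 1) / 6 : ℝ) - e = (x - n) * (n + x - 6 * m - 1) / 6 := by
    have : (e : ℝ) = ((6 * m + 1 : ℝ) ^ 2 - D ^ 2) / 24 := by rw [hDsq]; ring
    rw [this, hDx]
    ring
  have : 0 ≤ (x - n) * (n + x - 6 * m - 1) / 6 := by
    have h3 : 0 ≤ x - n := by linarith
    have h4 : 0 ≤ n + x - 6 * m - 1 := by linarith
    positivity
  linarith

theorem DEN_bd (m G : ℕ) (e : ℤ) (h3 : -e ≤ 2 * G) (n : ℕ)
    (hn : n = ⌊((6 * m + 1 : ℝ) + Real.sqrt ((6 * m + 1 : ℝ) ^ 2 - 24 * (e : ℝ))) / 2⌋₊) :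
    (n : ℝ) ≤ 6 * m + 1 + 4 * Real.sqrt G := by
  have he' : -(e : ℝ) ≤ 2 * G := by exact_mod_cast h3
  have hs : Real.sqrt ((6 * m + 1 : ℝ) ^ 2 - 24 * (e : ℝ)) ≤ (6 * m + 1) + 8 * Real.sqrt G := by
    apply Real.sqrt_le_iff.mpr
    refine ⟨by positivity, ?_⟩
    have h1 : Real.sqrt G ^ 2 = G := Real.sq_sqrt (by positivity)
    have h2 : 0 ≤ (6 * m + 1 : ℝ) * Real.sqrt G := by positivity
    have h4 : (0 : ℝ) ≤ G := by positivity
    nlinarith
  have hx0 : 0 ≤ ((6 * m + 1 : ℝ) + Real.sqrt ((6 * m + 1 : ℝ) ^ 2 - 24 * (e : ℝ))) / 2 := by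
    positivity
  have hnx := Nat.floor_le hx0
  rw [← hn] at hnx
  linarith

open Classical in
theorem DEN_core (m G : ℕ) (hm : 1 ≤ m) (e : ℕ → ℤ) (he : Function.Injective e)
    (h2 : ∀ g, e g ≤ 2) (h3 : ∀ g, -e g ≤ 2 * g) (N : ℕ → ℕ)
    (hN : ∀ g, N g =
      ⌊((6 * m + 1 : ℝ) + Real.sqrt ((6 * m + 1 : ℝ) ^ 2 - 24 * (e g : ℝ))) / 2⌋₊)
    (A : Set ℕ) (hA : ∀ g ∈ A, g < G ∧
      ¬ ((e g : ℝ) + 15 * m + 500 ≤ m * N g - N g * (N g - 1) / 6)) :
    (A.ncard : ℝ) ≤ 5000 * m * (m + Real.sqrt G) := by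
  have hm' : (1 : ℝ) ≤ m := by exact_mod_cast hm
  set F : Finset ℕ := (Finset.range G).filter (fun g => g ∈ A) with hF
  have hFA : A = (F : Set ℕ) := by
    ext g
    simp only [hF, Finset.coe_filter, Finset.mem_range, Set.mem_ofPred_eq]
    exact ⟨fun h => ⟨(hA g h).1, h⟩, fun h => h.2⟩
  set B : ℕ := ⌊(6 * m + 1 + 4 * Real.sqrt G : ℝ)⌋₊ with hB
  have hmaps : ∀ g ∈ F, N g ∈ Finset.range (B + 1) := by
    intro g hg
    rw [Finset.mem_range, Nat.lt_succ_iff, hB]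
    apply Nat.le_floor
    have hgG : g < G := (Finset.mem_range.mp (Finset.mem_filter.mp hg).1)
    refine DEN_bd m G (e g) ?_ (N g) (hN g)
    have := h3 g
    have h5 : (g : ℤ) ≤ G := by exact_mod_cast hgG.le
    linarith
  have hcard := Finset.card_eq_sum_card_fiberwise (f := N) (s := F) (t := Finset.range (B + 1))
    (fun g hg => hmaps g hg)
  have hfib : ∀ n ∈ Finset.range (B + 1), (F.filter (fun g => N g = n)).card ≤ 15 * m + 500 := by
    intro n _
    set v : ℤ := ⌊(m * n - n * (n - 1) / 6 : ℝ)⌋ with hv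
    have hinj : (F.filter (fun g => N g = n)).card ≤
        (Finset.Ioc (v - (15 * m + 500 : ℤ)) v).card := by
      apply Finset.card_le_card_of_injOn e
      · intro g hg
        rw [Finset.mem_coe, Finset.mem_filter] at hg
        obtain ⟨hgF, hgn⟩ := hg
        have hgA : g ∈ A := (Finset.mem_filter.mp hgF).2
        have hx := (hA g hgA).2
        rw [hgn] at hx
        push Not at hx
        have hu := DEN_aux m hm (e g) (h2 g) n (by rw [← hgn]; exact hN g)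
        rw [Finset.mem_coe, Finset.mem_Ioc]
        constructor
        · have h6 : (v : ℝ) ≤ (m * n - n * (n - 1) / 6 : ℝ) := Int.floor_le _
          have : (v : ℝ) - (15 * m + 500) < (e g : ℝ) := by linarith
          exact_mod_cast this
        · exact Int.le_floor.mpr hu
      · exact he.injOn
    refine hinj.trans ?_
    rw [Int.card_Ioc]
    have : v - (v - (15 * m + 500 : ℤ)) = ((15 * m + 500 : ℕ) : ℤ) := by push_cast; ring
    rw [this, Int.toNat_natCast]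
  have hle : F.card ≤ (B + 1) * (15 * m + 500) := by
    rw [hcard]
    refine (Finset.sum_le_card_nsmul _ _ _ hfib).trans ?_
    rw [Finset.card_range, smul_eq_mul]
  rw [hFA, Set.ncard_coe_finset]
  have hle' : (F.card : ℝ) ≤ ((B : ℝ) + 1) * (15 * m + 500) := by exact_mod_cast hle
  have hBle : (B : ℝ) ≤ 6 * m + 1 + 4 * Real.sqrt G := by
    rw [hB]
    exact Nat.floor_le (by positivity)
  have hs0 : 0 ≤ Real.sqrt (G : ℝ) := Real.sqrt_nonneg _
  calc (F.card : ℝ) ≤ ((B : ℝ) + 1) * (15 * m + 500) := hle'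
    _ ≤ (8 * m + 4 * Real.sqrt G) * (515 * m) := by
      apply mul_le_mul
      · linarith
      · linarith
      · positivity
      · positivity
    _ ≤ 5000 * m * (m + Real.sqrt G) := by
      nlinarith [mul_nonneg (le_trans zero_le_one hm') hs0]

theorem DEN : ST_DEN := by
  intro P hP
  refine ⟨5000, fun m G hm => ⟨?_, ?_⟩⟩
  · refine DEN_core m G hm (fun g => (Surf.ori g).eps) ?_ ?_ ?_ (fun g => heawood (Surf.ori g) m)
      (fun g => rfl) _ ?_
    · intro a b hab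
      simp only [Surf.eps] at hab
      omega
    · intro g
      simp only [Surf.eps]
      omega
    · intro g
      simp only [Surf.eps]
      omega
    · intro g hg
      exact ⟨hg.1, fun h => hg.2 (hP _ m hm h)⟩
  · refine DEN_core m G hm (fun g => (Surf.non g).eps) ?_ ?_ ?_ (fun g => heawood (Surf.non g) m)
      (fun g => rfl) _ ?_
    · intro a b hab
      simp only [Surf.eps] at hab
      omega
    · intro g
      simp only [Surf.eps]
      omega
    · intro g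
      simp only [Surf.eps]
      omega
    · intro g hg
      exact ⟨hg.1, fun h => hg.2 (hP _ m hm h)⟩

end Pool.Agent.Helper24.HW
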