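import Pool.Agent.Helper24.HW.Stmts

/-! Modules NG and KCL of hw_mods. -/

set_option autoImplicit false

namespace Pool.Agent.Helper24.HW

open Equiv Equiv.Perm Pool.Agent.Helper24.HWPub

section
variable (k j : ℕ) [NeZero k]

theorem ngf_t0_zero (i : Fin (k + j)) (h : (i : ℕ) = 0) :
    ngf k j (Sum.inl (i, 0)) = Sum.inr (Sum.inr (Sum.inr 0)) := dif_pos h

theorem ngf_t0_pos (i : Fin (k + j)) (h : ¬ (i : ℕ) = 0) :
    ngf k j (Sum.inl (i, 0)) = Sum.inl (⟨i - 1, by omega⟩, 2) := dif_neg h

theorem ngf_t1_lt (i : Fin (k + j)) (h : (i : ℕ) < j) :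
    ngf k j (Sum.inl (i, 1)) = Sum.inr (Sum.inr (Sum.inl ⟨i, h⟩)) := dif_pos h

theorem ngf_t1_ge (i : Fin (k + j)) (h : ¬ (i : ℕ) < j) :
    ngf k j (Sum.inl (i, 1)) = Sum.inr (Sum.inl (⟨i - j, by omega⟩, 1)) := dif_neg h

theorem ngf_t2_lt (i : Fin (k + j)) (h : (i : ℕ) + 1 < k + j) :
    ngf k j (Sum.inl (i, 2)) = Sum.inl (⟨i + 1, h⟩, 0) := dif_pos h

theorem ngf_t2_ge (i : Fin (k + j)) (h : ¬ (i : ℕ) + 1 < k + j) :
    ngf k j (Sum.inl (i, 2)) = Sum.inr (Sum.inr (Sum.inr 1)) := dif_neg h

theorem ngf_b0_zero (i : Fin k) (h : (i : ℕ) = 0) :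
    ngf k j (Sum.inr (Sum.inl (i, 0))) = Sum.inr (Sum.inr (Sum.inr 2)) := dif_pos h

theorem ngf_b0_pos (i : Fin k) (h : ¬ (i : ℕ) = 0) :
    ngf k j (Sum.inr (Sum.inl (i, 0))) = Sum.inr (Sum.inl (⟨i - 1, by omega⟩, 2)) := dif_neg h

theorem ngf_b1 (i : Fin k) :
    ngf k j (Sum.inr (Sum.inl (i, 1))) = Sum.inl (⟨i + j, by omega⟩, 1) := rfl

theorem ngf_b2_lt (i : Fin k) (h : (i : ℕ) + 1 < k) :
    ngf k j (Sum.inr (Sum.inl (i, 2))) = Sum.inr (Sum.inl (⟨i + 1, h⟩, 0)) := dif_pos h

theorem ngf_b2_ge (i : Fin k) (h : ¬ (i : ℕ) + 1 < k) :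
    ngf k j (Sum.inr (Sum.inl (i, 2))) = Sum.inr (Sum.inr (Sum.inr 3)) := dif_neg h

theorem ngf_p (p : Fin j) :
    ngf k j (Sum.inr (Sum.inr (Sum.inl p))) = Sum.inl (⟨p, by omega⟩, 1) := rfl

theorem ngf_e0 : ngf k j (Sum.inr (Sum.inr (Sum.inr 0))) =
    Sum.inl (⟨0, by have := NeZero.pos k; omega⟩, 0) := rfl

theorem ngf_e1 : ngf k j (Sum.inr (Sum.inr (Sum.inr 1))) =
    Sum.inl (⟨k + j - 1, by have := NeZero.pos k; omega⟩, 2) := rfl

theorem ngf_e2 : ngf k j (Sum.inr (Sum.inr (Sum.inr 2))) =
    Sum.inr (Sum.inl (⟨0, NeZero.pos k⟩, 0)) := rfl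

theorem ngf_e3 : ngf k j (Sum.inr (Sum.inr (Sum.inr 3))) =
    Sum.inr (Sum.inl (⟨k - 1, by have := NeZero.pos k; omega⟩, 2)) := rfl

end

theorem NG : ST_NG := by
  intro k j hk
  have hk0 : 0 < k := NeZero.pos k
  refine ⟨?_, ?_, ?_⟩
  · rintro (⟨i, s⟩ | (⟨i, s⟩ | (p | e)))
    · have hi := i.2
      fin_cases s
      · change ngf k j (ngf k j (Sum.inl (i, 0))) = Sum.inl (i, 0)
        by_cases h : (i : ℕ) = 0
        · rw [ngf_t0_zero k j i h, ngf_e0]
          congr 2
          exact Fin.ext h.symm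
        · rw [ngf_t0_pos k j i h, ngf_t2_lt]
          · congr 2
            apply Fin.ext
            change (i : ℕ) - 1 + 1 = i
            omega
          · change (i : ℕ) - 1 + 1 < k + j
            omega
      · change ngf k j (ngf k j (Sum.inl (i, 1))) = Sum.inl (i, 1)
        by_cases h : (i : ℕ) < j
        · rw [ngf_t1_lt k j i h, ngf_p]
        · rw [ngf_t1_ge k j i h, ngf_b1]
          congr 2
          apply Fin.ext
          change (i : ℕ) - j + j = i
          omega
      · change ngf k j (ngf k j (Sum.inl (i, 2))) = Sum.inl (i, 2)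
        by_cases h : (i : ℕ) + 1 < k + j
        · rw [ngf_t2_lt k j i h, ngf_t0_pos]
          · rfl
          · change ¬ (i : ℕ) + 1 = 0
            omega
        · rw [ngf_t2_ge k j i h, ngf_e1]
          congr 2
          apply Fin.ext
          change k + j - 1 = i
          omega
    · have hi := i.2
      fin_cases s
      · change ngf k j (ngf k j (Sum.inr (Sum.inl (i, 0)))) = Sum.inr (Sum.inl (i, 0))
        by_cases h : (i : ℕ) = 0
        · rw [ngf_b0_zero k j i h, ngf_e2]
          congr 3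
          exact Fin.ext h.symm
        · rw [ngf_b0_pos k j i h, ngf_b2_lt]
          · congr 3
            apply Fin.ext
            change (i : ℕ) - 1 + 1 = i
            omega
          · change (i : ℕ) - 1 + 1 < k
            omega
      · change ngf k j (ngf k j (Sum.inr (Sum.inl (i, 1)))) = Sum.inr (Sum.inl (i, 1))
        rw [ngf_b1, ngf_t1_ge]
        · congr 3
          apply Fin.ext
          change (i : ℕ) + j - j = i
          omega
        · change ¬ (i : ℕ) + j < j
          omega
      · change ngf k j (ngf k j (Sum.inr (Sum.inl (i, 2)))) = Sum.inr (Sum.inl (i, 2))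
        by_cases h : (i : ℕ) + 1 < k
        · rw [ngf_b2_lt k j i h, ngf_b0_pos]
          · rfl
          · change ¬ (i : ℕ) + 1 = 0
            omega
        · rw [ngf_b2_ge k j i h, ngf_e3]
          congr 3
          apply Fin.ext
          change k - 1 = i
          omega
    · have hp := p.2
      rw [ngf_p, ngf_t1_lt k j _ hp]
    · fin_cases e
      · change ngf k j (ngf k j (Sum.inr (Sum.inr (Sum.inr 0)))) = Sum.inr (Sum.inr (Sum.inr 0))
        rw [ngf_e0, ngf_t0_zero k j _ rfl]
      · change ngf k j (ngf k j (Sum.inr (Sum.inr (Sum.inr 1)))) = Sum.inr (Sum.inr (Sum.inr 1))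
        rw [ngf_e1, ngf_t2_ge]
        change ¬ (k + j - 1) + 1 < k + j
        omega
      · change ngf k j (ngf k j (Sum.inr (Sum.inr (Sum.inr 2)))) = Sum.inr (Sum.inr (Sum.inr 2))
        rw [ngf_e2, ngf_b0_zero k j _ rfl]
      · change ngf k j (ngf k j (Sum.inr (Sum.inr (Sum.inr 3)))) = Sum.inr (Sum.inr (Sum.inr 3))
        rw [ngf_e3, ngf_b2_ge]
        change ¬ (k - 1) + 1 < k
        omega
  · rintro (⟨i, s⟩ | (⟨i, s⟩ | (p | e)))
    · fin_cases s
      · change ngf k j (Sum.inl (i, 0)) ≠ Sum.inl (i, 0)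
        by_cases h : (i : ℕ) = 0
        · rw [ngf_t0_zero k j i h]; simp
        · rw [ngf_t0_pos k j i h]; simp
      · change ngf k j (Sum.inl (i, 1)) ≠ Sum.inl (i, 1)
        by_cases h : (i : ℕ) < j
        · rw [ngf_t1_lt k j i h]; simp
        · rw [ngf_t1_ge k j i h]; simp
      · change ngf k j (Sum.inl (i, 2)) ≠ Sum.inl (i, 2)
        by_cases h : (i : ℕ) + 1 < k + j
        · rw [ngf_t2_lt k j i h]; simp
        · rw [ngf_t2_ge k j i h]; simp
    · fin_cases s
      · change ngf k j (Sum.inr (Sum.inl (i, 0))) ≠ Sum.inr (Sum.inl (i, 0))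
        by_cases h : (i : ℕ) = 0
        · rw [ngf_b0_zero k j i h]; simp
        · rw [ngf_b0_pos k j i h]; simp
      · change ngf k j (Sum.inr (Sum.inl (i, 1))) ≠ Sum.inr (Sum.inl (i, 1))
        rw [ngf_b1]; simp
      · change ngf k j (Sum.inr (Sum.inl (i, 2))) ≠ Sum.inr (Sum.inl (i, 2))
        by_cases h : (i : ℕ) + 1 < k
        · rw [ngf_b2_lt k j i h]; simp
        · rw [ngf_b2_ge k j i h]; simp
    · rw [ngf_p]; simp
    · fin_cases e
      · change ngf k j (Sum.inr (Sum.inr (Sum.inr 0))) ≠ Sum.inr (Sum.inr (Sum.inr 0))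
        rw [ngf_e0]; simp
      · change ngf k j (Sum.inr (Sum.inr (Sum.inr 1))) ≠ Sum.inr (Sum.inr (Sum.inr 1))
        rw [ngf_e1]; simp
      · change ngf k j (Sum.inr (Sum.inr (Sum.inr 2))) ≠ Sum.inr (Sum.inr (Sum.inr 2))
        rw [ngf_e2]; simp
      · change ngf k j (Sum.inr (Sum.inr (Sum.inr 3))) ≠ Sum.inr (Sum.inr (Sum.inr 3))
        rw [ngf_e3]; simp
  · rintro (⟨i, s⟩ | (⟨i, s⟩ | (p | e)))
    · have hi := i.2
      fin_cases s
      · change cz k j (ngf k j (Sum.inl (i, 0))) = -(-av k j i)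
        by_cases h : (i : ℕ) = 0
        · rw [ngf_t0_zero k j i h]
          change av k j 0 = -(-av k j i)
          rw [neg_neg, h]
        · rw [ngf_t0_pos k j i h]
          change av k j (i - 1 + 1) = -(-av k j i)
          have h1 : (i : ℕ) - 1 + 1 = i := by omega
          rw [neg_neg, h1]
      · change cz k j (ngf k j (Sum.inl (i, 1))) = -(av k j i - av k j (i + 1))
        by_cases h : (i : ℕ) < j
        · rw [ngf_t1_lt k j i h]
          change av k j (i + 1) - av k j i = -(av k j i - av k j (i + 1))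
          ring
        · rw [ngf_t1_ge k j i h]
          change av k j (j + (i - j) + 1) - av k j (j + (i - j)) = -(av k j i - av k j (i + 1))
          have h1 : j + ((i : ℕ) - j) = i := by omega
          rw [h1]
          ring
      · change cz k j (ngf k j (Sum.inl (i, 2))) = -(av k j (i + 1))
        by_cases h : (i : ℕ) + 1 < k + j
        · rw [ngf_t2_lt k j i h]
          rfl
        · rw [ngf_t2_ge k j i h]
          change -av k j (k + j) = -(av k j (i + 1))
          have h1 : (i : ℕ) + 1 = k + j := by omega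
          rw [h1]
    · have hi := i.2
      fin_cases s
      · change cz k j (ngf k j (Sum.inr (Sum.inl (i, 0)))) = -(bv k j (j + i))
        by_cases h : (i : ℕ) = 0
        · rw [ngf_b0_zero k j i h]
          change -bv k j j = -(bv k j (j + i))
          rw [h, add_zero]
        · rw [ngf_b0_pos k j i h]
          change -bv k j (j + (i - 1) + 1) = -(bv k j (j + i))
          have h1 : j + ((i : ℕ) - 1) + 1 = j + i := by omega
          rw [h1]
      · change cz k j (ngf k j (Sum.inr (Sum.inl (i, 1)))) =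
          -(av k j (j + i + 1) - av k j (j + i))
        rw [ngf_b1]
        change av k j (i + j) - av k j (i + j + 1) = -(av k j (j + i + 1) - av k j (j + i))
        rw [Nat.add_comm (i : ℕ) j]
        ring
      · change cz k j (ngf k j (Sum.inr (Sum.inl (i, 2)))) = -(-bv k j (j + i + 1))
        by_cases h : (i : ℕ) + 1 < k
        · rw [ngf_b2_lt k j i h]
          change bv k j (j + (i + 1)) = -(-bv k j (j + i + 1))
          rw [neg_neg]
          rfl
        · rw [ngf_b2_ge k j i h]
          change bv k j (j + k) = -(-bv k j (j + i + 1))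
          have h1 : j + k = j + (i : ℕ) + 1 := by omega
          rw [neg_neg, h1]
    · rw [ngf_p]
      change av k j p - av k j (p + 1) = -(av k j (p + 1) - av k j p)
      ring
    · fin_cases e
      · change cz k j (ngf k j (Sum.inr (Sum.inr (Sum.inr 0)))) = -(av k j 0)
        rw [ngf_e0]
        rfl
      · change cz k j (ngf k j (Sum.inr (Sum.inr (Sum.inr 1)))) = -(-av k j (k + j))
        rw [ngf_e1]
        change av k j (k + j - 1 + 1) = -(-av k j (k + j))
        have h1 : k + j - 1 + 1 = k + j := by omega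
        rw [neg_neg, h1]
      · change cz k j (ngf k j (Sum.inr (Sum.inr (Sum.inr 2)))) = -(-bv k j j)
        rw [ngf_e2]
        change bv k j (j + 0) = -(-bv k j j)
        rw [neg_neg]
        rfl
      · change cz k j (ngf k j (Sum.inr (Sum.inr (Sum.inr 3)))) = -(bv k j (j + k))
        rw [ngf_e3]
        change -bv k j (j + (k - 1) + 1) = -(bv k j (j + k))
        have h1 : j + (k - 1) + 1 = j + k := by omega
        rw [h1]

theorem rot_top (k j t : ℕ) (i : Fin (k + j)) (s : Fin 3) :
    rot k j t (Sum.inl (i, s)) = Sum.inl (i, s + 1) := rfl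

theorem rot_bot (k j t : ℕ) (i : Fin k) (s : Fin 3) :
    rot k j t (Sum.inr (Sum.inl (i, s))) =
      Sum.inr (Sum.inl (i, s + (if (i : ℕ) < t then 2 else 1))) := rfl

theorem rot_end (k j t : ℕ) (y : Fin j ⊕ Fin 4) :
    rot k j t (Sum.inr (Sum.inr y)) = Sum.inr (Sum.inr y) := rfl

theorem bv_diff (k j i : ℕ) : bv k j (i + 1) - bv k j i = av k j (i + 1) - av k j i := by
  unfold bv
  ring

theorem KCL : ST_KCL := by
  intro k j t hk x hx
  rcases x with (⟨i, s⟩ | (⟨i, s⟩ | y))
  · rw [rot_top, rot_top, rot_top]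
    constructor
    · congr 2
      fin_cases s <;> rfl
    · fin_cases s
      · change -av k j i + (av k j i - av k j (i + 1)) + av k j (i + 1) = 0
        ring
      · change (av k j i - av k j (i + 1)) + av k j (i + 1) + -av k j i = 0
        ring
      · change av k j (i + 1) + -av k j i + (av k j i - av k j (i + 1)) = 0
        ring
  · have hb := bv_diff k j (j + i)
    rw [rot_bot, rot_bot, rot_bot]
    by_cases h : (i : ℕ) < t
    · rw [if_pos h]
      constructor
      · congr 3
        fin_cases s <;> rfl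
      · fin_cases s
        · change bv k j (j + i) + -bv k j (j + i + 1) + (av k j (j + i + 1) - av k j (j + i)) = 0
          linarith
        · change (av k j (j + i + 1) - av k j (j + i)) + bv k j (j + i) + -bv k j (j + i + 1) = 0
          linarith
        · change -bv k j (j + i + 1) + (av k j (j + i + 1) - av k j (j + i)) + bv k j (j + i) = 0
          linarith
    · rw [if_neg h]
      constructor
      · congr 3
        fin_cases s <;> rfl
      · fin_cases s
        · change bv k j (j + i) + (av k j (j + i + 1) - av k j (j + i)) + -bv k j (j + i + 1) = 0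
          linarith
        · change (av k j (j + i + 1) - av k j (j + i)) + -bv k j (j + i + 1) + bv k j (j + i) = 0
          linarith
        · change -bv k j (j + i + 1) + bv k j (j + i) + (av k j (j + i + 1) - av k j (j + i)) = 0
          linarith
  · exact absurd (rot_end k j t y) hx

end Pool.Agent.Helper24.HW
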