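import Pool.Agent.Helper24.HW.Stmts

/-! Module VAL of hw_mods: the values of the currents. -/

set_option autoImplicit false

namespace Pool.Agent.Helper24.HW

open Equiv Equiv.Perm Pool.Agent.Helper24.HWPub

theorem av_even (k j q : ℕ) : av k j (2 * q) = (k + j + 1 : ℤ) + q := by
  unfold av
  have h1 : 2 * q % 2 = 0 := by omega
  have h2 : 2 * q / 2 = q := by omega
  rw [if_pos h1, h2]

theorem av_odd (k j q : ℕ) : av k j (2 * q + 1) = (2 * (k + j) + 1 : ℤ) - q := by
  unfold av
  have h1 : ¬ (2 * q + 1) % 2 = 0 := by omega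
  have h2 : (2 * q + 1) / 2 = q := by omega
  rw [if_neg h1, h2]

theorem av_bounds (k j i : ℕ) (hi : i ≤ k + j) :
    (k + j + 1 : ℤ) ≤ av k j i ∧ av k j i ≤ 2 * (k + j) + 1 := by
  rcases Nat.even_or_odd' i with ⟨q, rfl | rfl⟩
  · rw [av_even]; constructor <;> omega
  · rw [av_odd]; constructor <;> omega

/-- differences of consecutive top currents -/
theorem av_diff (k j i : ℕ) (hi : i < k + j) :
    av k j i - av k j (i + 1) = -((k + j - i : ℕ) : ℤ) ∨
      av k j i - av k j (i + 1) = ((k + j - i : ℕ) : ℤ) := by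
  rcases Nat.even_or_odd' i with ⟨q, rfl | rfl⟩
  · left
    rw [av_even, av_odd]
    omega
  · right
    have h : 2 * q + 1 + 1 = 2 * (q + 1) := by ring
    rw [av_odd, h, av_even]
    omega

theorem bv_bounds (k j i : ℕ) (hj : j ≤ i) (hi : i ≤ k + j) :
    (2 * k + 2 * j + 2 : ℤ) ≤ bv k j i ∧ bv k j i ≤ 3 * k + 2 * j + 2 := by
  unfold bv
  rcases Nat.even_or_odd' i with ⟨q, rfl | rfl⟩
  · rw [av_even]; constructor <;> omega
  · rw [av_odd]; constructor <;> omega

theorem abs_of_bounds {z a b : ℤ} (h1 : a ≤ z) (h2 : z ≤ b) (ha : 0 < a) : z ≠ 0 ∧ |z| ≤ b := by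
  constructor
  · omega
  · rw [abs_of_pos (by omega)]; exact h2

theorem VAL : ST_VAL := by
  intro k j hk
  have hk0 : 0 < k := NeZero.pos k
  have hvert : ∀ i : ℕ, i < k + j → av k j i - av k j (i + 1) ≠ 0 ∧
      |av k j i - av k j (i + 1)| ≤ 3 * k + 2 * j + 2 := by
    intro i hi
    rcases av_diff k j i hi with h | h
    · rw [h, abs_neg, abs_of_nonneg (by omega)]
      constructor <;> omega
    · rw [h, abs_of_nonneg (by omega)]
      constructor <;> omega
  have htop : ∀ i : ℕ, i ≤ k + j → av k j i ≠ 0 ∧ |av k j i| ≤ 3 * k + 2 * j + 2 := by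
    intro i hi
    obtain ⟨h1, h2⟩ := av_bounds k j i hi
    constructor
    · omega
    · rw [abs_of_pos (by omega)]; omega
  have hbot : ∀ i : ℕ, j ≤ i → i ≤ k + j → bv k j i ≠ 0 ∧ |bv k j i| ≤ 3 * k + 2 * j + 2 := by
    intro i hj hi
    obtain ⟨h1, h2⟩ := bv_bounds k j i hj hi
    constructor
    · omega
    · rw [abs_of_pos (by omega)]; omega
  have hneg : ∀ z : ℤ, z ≠ 0 ∧ |z| ≤ 3 * k + 2 * j + 2 → -z ≠ 0 ∧ |-z| ≤ 3 * k + 2 * j + 2 := by
    intro z hz
    rw [abs_neg]
    exact ⟨neg_ne_zero.2 hz.1, hz.2⟩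
  have hswap : ∀ i : ℕ, i < k + j → av k j (i + 1) - av k j i ≠ 0 ∧
      |av k j (i + 1) - av k j i| ≤ 3 * k + 2 * j + 2 := by
    intro i hi
    have h := hneg _ (hvert i hi)
    rwa [neg_sub] at h
  constructor
  · rintro (⟨i, s⟩ | (⟨i, s⟩ | (p | e)))
    · have hi := i.2
      fin_cases s
      · exact hneg _ (htop i (by omega))
      · exact hvert i hi
      · exact htop (i + 1) (by omega)
    · have hi := i.2
      fin_cases s
      · exact hbot (j + i) (by omega) (by omega)
      · exact hswap (j + i) (by omega)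
      · exact hneg _ (hbot (j + i + 1) (by omega) (by omega))
    · have hp := p.2
      exact hswap p (by omega)
    · fin_cases e
      · exact htop 0 (by omega)
      · exact hneg _ (htop (k + j) le_rfl)
      · exact hneg _ (hbot j le_rfl (by omega))
      · exact hbot (j + k) (by omega) (by omega)
  · intro v hv1 hv2
    -- the top edge `i` is the value of some dart
    have htopd : ∀ i : ℕ, i ≤ k + j → ∃ t, cz k j t = av k j i := by
      intro i hi
      rcases Nat.eq_zero_or_pos i with h0 | h0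
      · subst h0
        exact ⟨Sum.inr (Sum.inr (Sum.inr 0)), rfl⟩
      · refine ⟨Sum.inl (⟨i - 1, by omega⟩, 2), ?_⟩
        have h1 : i - 1 + 1 = i := by omega
        change av k j (i - 1 + 1) = av k j i
        rw [h1]
    have hbotd : ∀ i : ℕ, j ≤ i → i ≤ k + j → ∃ t, cz k j t = bv k j i := by
      intro i hj hi
      rcases Nat.lt_or_ge i (k + j) with h0 | h0
      · refine ⟨Sum.inr (Sum.inl (⟨i - j, by omega⟩, 0)), ?_⟩
        have h1 : j + (i - j) = i := by omega
        change bv k j (j + (i - j)) = bv k j i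
        rw [h1]
      · have h1 : i = j + k := by omega
        subst h1
        exact ⟨Sum.inr (Sum.inr (Sum.inr 3)), rfl⟩
    rcases Nat.lt_or_ge (k + j) v with h | h
    · rcases Nat.lt_or_ge (2 * k + 2 * j + 1) v with h' | h'
      · -- bottom edge
        obtain ⟨w, hw⟩ : ∃ w : ℕ, w + (k + 1 + j / 2) = v := ⟨v - (k + 1 + j / 2), by omega⟩
        have hw1 : k + j + 1 + (j + 1) / 2 ≤ w := by omega
        have hw2 : w ≤ 2 * k + j + 1 + (j + 1) / 2 := by omega
        have hex : ∃ i, j ≤ i ∧ i ≤ k + j ∧ av k j i = w := by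
          rcases Nat.lt_or_ge (k + j) (2 * (w - (k + j + 1))) with hc | hc
          · refine ⟨2 * (2 * (k + j) + 1 - w) + 1, by omega, by omega, ?_⟩
            rw [av_odd]
            omega
          · refine ⟨2 * (w - (k + j + 1)), by omega, by omega, ?_⟩
            rw [av_even]
            omega
        obtain ⟨i, hi1, hi2, hi3⟩ := hex
        obtain ⟨t, ht⟩ := hbotd i hi1 hi2
        refine ⟨t, Or.inl ?_⟩
        rw [ht]
        unfold bv
        rw [hi3]
        omega
      · -- top edge
        have hex : ∃ i, i ≤ k + j ∧ av k j i = v := by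
          rcases Nat.lt_or_ge (k + j) (2 * (v - (k + j + 1))) with hc | hc
          · refine ⟨2 * (2 * (k + j) + 1 - v) + 1, by omega, ?_⟩
            rw [av_odd]
            omega
          · refine ⟨2 * (v - (k + j + 1)), by omega, ?_⟩
            rw [av_even]
            omega
        obtain ⟨i, hi1, hi2⟩ := hex
        obtain ⟨t, ht⟩ := htopd i hi1
        exact ⟨t, Or.inl (by rw [ht, hi2])⟩
    · -- vertical edge
      refine ⟨Sum.inl (⟨k + j - v, by omega⟩, 1), ?_⟩
      have h1 : k + j - (k + j - v) = v := by omega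
      change av k j (k + j - v) - av k j (k + j - v + 1) = v ∨
        av k j (k + j - v) - av k j (k + j - v + 1) = -v
      rcases av_diff k j (k + j - v) (by omega) with h2 | h2
      · right
        rw [h2, h1]
      · left
        rw [h2, h1]

end Pool.Agent.Helper24.HW
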