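import Pool.Agent.Helper88.HW.ADE
import Pool.Agent.Helper78.HW.C0
import Pool.Agent.Helper97.HW.CG
import Pool.Agent.Helper25.HW.CK
import Pool.Agent.Helper71.HW.CM
import Pool.Agent.Helper42.HW.CNJ
import Pool.Agent.Helper97.HW.CNK
import Pool.Agent.Helper81.HW.CP
import Pool.Agent.Helper7.HW.CST
import Pool.Agent.Helper7.HW.CUB
import Pool.Agent.Helper61.HW.DAD
import Pool.Agent.Helper51.HW.DCN
import Pool.Agent.Helper52.HW.DFC
import Pool.Agent.Helper11.HW.DIH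
import Pool.Agent.Helper79.HW.DOR
import Pool.Agent.Helper78.HW.DOWN
import Pool.Agent.Helper5.HW.EDG
import Pool.Agent.Helper5.HW.FIX
import Pool.Agent.Helper91.HW.FLG
import Pool.Agent.Helper5.HW.HAN
import Pool.Agent.Helper51.HW.KK
import Pool.Agent.Helper20.HW.LOP
import Pool.Agent.Helper79.HW.MAIN
import Pool.Agent.Helper88.HW.MALL
import Pool.Agent.Helper24.HW.NG
import Pool.Agent.Helper24.HW.VAL
import Pool.Agent.Helper40.HW.NON
import Pool.Agent.Helper81.HW.NUM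
import Pool.Agent.Helper61.HW.PAR
import Pool.Agent.Helper94.HW.PCS
import Pool.Agent.Helper77.HW.PTM
import Pool.Agent.Helper3.HW.PTS
import Pool.Agent.Helper61.HW.PTU
import Pool.Agent.Helper61.HW.SIG
import Pool.Agent.Helper42.HW.SUM
import Pool.Agent.Helper57.HW.SURF
import Pool.Agent.Helper53.HW.TW
import Pool.Agent.Helper35.HW.UM
import Pool.Agent.Helper2.HW.CORE
import Pool.Agent.Helper49.HW.DSP
import Pool.Agent.Helper63.HW.M1
import Pool.Agent.Helper72.HW.GCD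
import Pool.Agent.Helper24.HW.DEN

/-!
MP_1b7c1f_co (Heawood's empire problem on surfaces): assembly of the modules of the crew.
-/

set_option autoImplicit false

namespace Pool.Agent.Helper24.HW

open Pool.Agent.Helper24.HWPub

theorem final :
    (∀ (S : Surf) (m : ℕ), 1 ≤ m →
      (S.eps : ℝ) + 15 * m + 500 ≤ m * heawood S m - heawood S m * (heawood S m - 1) / 6 →
      Necessary S m) ∧
    ∃ K : ℝ, ∀ m G : ℕ, 1 ≤ m →
      ({g : ℕ | g < G ∧ ¬ Necessary (Surf.ori g) m}.ncard : ℝ) ≤ K * m * (m + Real.sqrt G) ∧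
      ({g : ℕ | g < G ∧ ¬ Necessary (Surf.non g) m}.ncard : ℝ) ≤ K * m * (m + Real.sqrt G) := by
  have hSIG : ST_SIG := Pool.Agent.Helper61.HW.SIG
  have hCUB : ST_CUB := Pool.Agent.Helper7.HW.st_CUB
  have hPAR : ST_PAR := Pool.Agent.Helper61.HW.PAR hSIG hCUB
  have hNG : ST_NG := Pool.Agent.Helper24.HW.NG
  have hVAL : ST_VAL := Pool.Agent.Helper24.HW.VAL
  have hKCL : ST_KCL := Pool.Agent.Helper24.HW.KCL
  have hC0 : ST_C0 := Pool.Agent.Helper78.HW.C0 hNG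
  have hCG : ST_CG := Pool.Agent.Helper97.HW.CG hNG hVAL hKCL
  have hCK : ST_CK := Pool.Agent.Helper25.HW.CK
  have hCST : ST_CST := Pool.Agent.Helper7.HW.st_CST
  have hCP : ST_CP := Pool.Agent.Helper81.HW.CP hSIG hCUB hNG
  have hCM : ST_CM := Pool.Agent.Helper71.HW.CM hC0 hCK hCST hCP
  have hCNJ : ST_CNJ := Pool.Agent.Helper42.HW.CNJ
  have hCNK : ST_CNK := Pool.Agent.Helper97.HW.CNK
  have hSUM : ST_SUM := Pool.Agent.Helper42.HW.SUM
  have hPTM : ST_PTM := Pool.Agent.Helper77.HW.PTM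
  have hPTU : ST_PTU := Pool.Agent.Helper61.HW.PTU
  have hM1 : ST_M1 := Pool.Agent.Helper63.HW.M1 hPTM
  have hDSP : ST_DSP := Pool.Agent.Helper49.HW.DSP
  have hGCD : ST_GCD := Pool.Agent.Helper72.HW.GCD
  have hDEN : ST_DEN := Pool.Agent.Helper24.HW.DEN
  have hPTS : ST_PTS := Pool.Agent.Helper3.HW.PTS
  have hPCS : ST_PCS := Pool.Agent.Helper94.HW.PCS
  have hUM : ST_UM := Pool.Agent.Helper35.HW.UM hSUM hPTM hPTU hPAR
  have hHAN : ST_HAN := Pool.Agent.Helper5.HW.HAN hUM hPCS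
  have hADE : ST_ADE := Pool.Agent.Helper88.HW.ADE hUM hPCS hM1
  have hEDG : ST_EDG := Pool.Agent.Helper5.HW.EDG hADE
  have hMALL : ST_MALL := Pool.Agent.Helper88.HW.MALL hM1
  have hLOP : ST_LOP := Pool.Agent.Helper20.HW.LOP hUM hPCS
  have hDIH : ST_DIH := Pool.Agent.Helper11.HW.DIH
  have hFLG : ST_FLG := Pool.Agent.Helper91.HW.FLG hDIH hCUB hCNJ hSUM
  have hTW : ST_TW := Pool.Agent.Helper53.HW.st_TW hDIH
  have hNON : ST_NON := Pool.Agent.Helper40.HW.NON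
  have hSURF : ST_SURF := Pool.Agent.Helper57.HW.SURF hLOP hFLG hTW hNON
  have hDFC : ST_DFC := Pool.Agent.Helper52.HW.DFC hCUB
  have hDOR : ST_DOR := Pool.Agent.Helper79.HW.DOR
  have hDAD : ST_DAD := Pool.Agent.Helper61.HW.DAD
  have hDCN : ST_DCN := Pool.Agent.Helper51.HW.DCN
  have hDOWN : ST_DOWN := Pool.Agent.Helper78.HW.DOWN hHAN hPAR
  have hCORE : ST_CORE := Pool.Agent.Helper2.HW.CORE hDFC hDOR hDSP hDAD hDCN hPTS hMALL hEDG hDOWN hPAR
  have hFIX : ST_FIX := Pool.Agent.Helper5.HW.FIX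
  have hKK : ST_KK := Pool.Agent.Helper51.HW.KK hCORE hCG hCM hCNK hFIX hGCD hNG
  have hNUM : ST_NUM := Pool.Agent.Helper81.HW.NUM
  have hMAIN : ST_MAIN := Pool.Agent.Helper79.HW.MAIN hKK hSURF hNUM
  exact ⟨hMAIN, hDEN Necessary hMAIN⟩

end Pool.Agent.Helper24.HW
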