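import Mathlib

/-!
# Empire maps on closed surfaces: the definitions in the final statement

Maps on closed surfaces are given in the usual combinatorial way by their flags.
-/

set_option autoImplicit false

namespace Pool.Agent.Helper24.HWPub

open Equiv

/-- The number of orbits of the group generated by `a` and `b` on the set of flags. -/
noncomputable def num {Φ : Type} (a b : Perm Φ) : ℕ :=
  Nat.card (MulAction.orbitRel.Quotient (Subgroup.closure {a, b}) Φ)

/-- `a 0`, `a 1`, `a 2` are the flag involutions of a map on a closed connected surface: a flag is a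
triple (vertex, edge, face) of pairwise incident cells of the barycentric subdivision, and `a 0`,
`a 1`, `a 2` change the vertex, the edge, the face of a flag. The vertices, edges and faces of the
map are the orbits of the groups generated by `a 1, a 2`, by `a 0, a 2` and by `a 0, a 1`. -/
structure IsMap {Φ : Type} (a : Fin 3 → Perm Φ) : Prop where
  inv : ∀ i f, a i (a i f) = f
  fix : ∀ i f, a i f ≠ f
  comm : ∀ f, a 0 (a 2 f) = a 2 (a 0 f)
  ne02 : ∀ f, a 0 (a 2 f) ≠ f
  nonempty : Nonempty Φ
  conn : ∀ f g : Φ, g ∈ MulAction.orbit (Subgroup.closure (Set.range a)) f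

/-- The Euler characteristic: vertices - edges + faces. -/
noncomputable def euler {Φ : Type} (a : Fin 3 → Perm Φ) : ℤ :=
  (num (a 1) (a 2) : ℤ) - num (a 0) (a 2) + num (a 0) (a 1)

/-- The surface of the map is orientable. -/
def Orientable {Φ : Type} (a : Fin 3 → Perm Φ) : Prop :=
  ∃ s : Φ → Bool, ∀ i f, s (a i f) = !(s f)

/-- The closed surfaces: `ori g` is the sphere with `g` handles, `non h` is the sphere with `h + 1`
cross-caps. -/
inductive Surf : Type
  | ori (g : ℕ)
  | non (h : ℕ)

/-- Euler characteristic of a closed surface. -/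
def Surf.eps : Surf → ℤ
  | ori g => 2 - 2 * (g : ℤ)
  | non h => 1 - (h : ℤ)

/-- The surface is orientable. -/
def Surf.Ori : Surf → Prop
  | ori _ => True
  | non _ => False

/-- The map with flag involutions `a` lies on the closed surface `S`. -/
def On {Φ : Type} (a : Fin 3 → Perm Φ) (S : Surf) : Prop :=
  IsMap a ∧ euler a = S.eps ∧ (Orientable a ↔ S.Ori)

/-- `c` groups the faces (the parts) of the map into countries (numbered by natural numbers; `c f`
is the country of the face of the flag `f`), and every country has at most `m` parts. -/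
def IsEmpire {Φ : Type} (a : Fin 3 → Perm Φ) (m : ℕ) (c : Φ → ℕ) : Prop :=
  (∀ f, c (a 0 f) = c f) ∧ (∀ f, c (a 1 f) = c f) ∧
    ∀ A : ℕ, {O : MulAction.orbitRel.Quotient (Subgroup.closure {a 0, a 1}) Φ |
      ∃ f, c f = A ∧ Quotient.mk _ f = O}.ncard ≤ m

/-- The countries can be coloured with `q` colours such that different countries with parts that
share an edge have different colours. -/
def Colourable {Φ : Type} (a : Fin 3 → Perm Φ) (c : Φ → ℕ) (q : ℕ) : Prop :=
  ∃ κ : ℕ → Fin q, ∀ f, c f ≠ c (a 2 f) → κ (c f) ≠ κ (c (a 2 f))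

/-- Heawood's number for the surface `S` and empires of `m` parts. -/
noncomputable def heawood (S : Surf) (m : ℕ) : ℕ :=
  ⌊((6 * m + 1 : ℝ) + Real.sqrt ((6 * m + 1 : ℝ) ^ 2 - 24 * (S.eps : ℝ))) / 2⌋₊

/-- `heawood S m` colours are necessary: some `m`-empire map on `S` has no colouring with fewer
colours. -/
def Necessary (S : Surf) (m : ℕ) : Prop :=
  ∃ (Φ : Type) (_ : Finite Φ) (a : Fin 3 → Perm Φ) (c : Φ → ℕ),
    On a S ∧ IsEmpire a m c ∧ ∀ q, Colourable a c q → heawood S m ≤ q

end Pool.Agent.Helper24.HWPub
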