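import Pool.Agent.Helper98.Gn.Cyc
import Pool.Agent.Helper24.HW.Pub

/-! Internal definitions of the project HW (empire maps on surfaces). -/

set_option autoImplicit false

namespace Pool.Agent.Helper24.HW

open Equiv Equiv.Perm Pool.Agent.Helper24.HWPub
open Pool.Agent.Helper98.Gn (cyc)

/-- Labelled rotation systems: `D` darts, `σ` next dart at the same vertex, `α` reverse dart, `ℓ`
label of the vertex of a dart. -/
structure LM (C : Type) : Type 1 where
  D : Type
  fin : Fintype D
  dec : DecidableEq D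
  σ : Perm D
  α : Perm D
  ℓ : D → C
  hα : ∀ x, α (α x) = x
  hne : ∀ x, α x ≠ x
  hℓ : ∀ x, ℓ (σ x) = ℓ x

attribute [instance] LM.fin LM.dec

namespace LM

variable {C : Type}

/-- Euler characteristic -/
noncomputable def chi (M : LM C) : ℤ :=
  (cyc M.σ : ℤ) - (Nat.card M.D / 2 : ℕ) + cyc (M.σ * M.α)

/-- some vertex with label `A` is joined to some vertex with label `B` -/
def Adj (M : LM C) (A B : C) : Prop := ∃ x, M.ℓ x = A ∧ M.ℓ (M.α x) = B

/-- number of vertices with label `A` -/
noncomputable def pt (M : LM C) (A : C) : ℕ :=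
  {O : Quotient (SameCycle.setoid M.σ) | ∃ x, M.ℓ x = A ∧ Quotient.mk _ x = O}.ncard

/-- connectedness -/
def Conn (M : LM C) : Prop :=
  ∀ x y : M.D, Relation.EqvGen (fun u v => v = M.σ u ∨ v = M.α u) x y

/-- `M'` extends `M` -/
def Ext (M M' : LM C) : Prop :=
  (∀ A, M'.pt A = M.pt A) ∧ (∀ A B, M.Adj A B → M'.Adj A B) ∧ (M.Conn → M'.Conn) ∧
    (Nonempty M.D → Nonempty M'.D)

/-- change of the rotation -/
def re (M : LM C) (τ : Perm M.D) (h : ∀ x, M.ℓ (τ x) = M.ℓ x) : LM C where
  D := M.D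
  fin := M.fin
  dec := M.dec
  σ := τ
  α := M.α
  ℓ := M.ℓ
  hα := M.hα
  hne := M.hne
  hℓ := h

/-- disjoint union of `M` and `P` with the vertices of `a` and `b` identified -/
def um (M P : LM C) (a : M.D) (b : P.D) (h : M.ℓ a = P.ℓ b) : LM C where
  D := M.D ⊕ P.D
  fin := inferInstance
  dec := inferInstance
  σ := Perm.sumCongr M.σ P.σ * swap (Sum.inl a) (Sum.inr b)
  α := Perm.sumCongr M.α P.α
  ℓ := Sum.elim M.ℓ P.ℓ
  hα := by
    rintro (x | x)
    · simp [M.hα]
    · simp [P.hα]
  hne := by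
    rintro (x | x)
    · simpa using M.hne x
    · simpa using P.hne x
  hℓ := by
    rintro (x | x)
    · by_cases hx : x = a
      · subst hx
        simp [P.hℓ, h]
      · have h1 : (Sum.inl x : M.D ⊕ P.D) ≠ Sum.inl a := fun e => hx (Sum.inl.inj e)
        rw [Perm.mul_apply, swap_apply_of_ne_of_ne h1 (by simp)]
        simp [M.hℓ]
    · by_cases hx : x = b
      · subst hx
        simp [M.hℓ, h]
      · have h1 : (Sum.inr x : M.D ⊕ P.D) ≠ Sum.inr b := fun e => hx (Sum.inr.inj e)
        rw [Perm.mul_apply, swap_apply_of_ne_of_ne (by simp) h1]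
        simp [P.hℓ]

/-- one vertex on the torus with two loops -/
def tor (A : C) : LM C where
  D := Fin 4
  fin := inferInstance
  dec := inferInstance
  σ := Equiv.addRight 1
  α := Equiv.addRight 2
  ℓ := fun _ => A
  hα := by decide
  hne := by decide
  hℓ := fun _ => rfl

/-- one vertex on the sphere with one loop -/
def lop (A : C) : LM C where
  D := Fin 2
  fin := inferInstance
  dec := inferInstance
  σ := swap 0 1
  α := swap 0 1
  ℓ := fun _ => A
  hα := by decide
  hne := by decide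
  hℓ := fun _ => rfl

/-- one edge on the sphere, ends labelled `A`, `B` -/
def edg (A B : C) : LM C where
  D := Fin 2
  fin := inferInstance
  dec := inferInstance
  σ := 1
  α := swap 0 1
  ℓ := ![A, B]
  hα := by decide
  hne := by decide
  hℓ := fun _ => rfl

/-- the flags of `M`: vertices of `M` are faces of the flag system -/
def flg (M : LM C) : Fin 3 → Perm (M.D × Bool) :=
  ![Equiv.prodCongr (Equiv.refl M.D) Equiv.boolNot,
    { toFun := fun z => if z.2 then (M.σ z.1, false) else (M.σ.symm z.1, true)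
      invFun := fun z => if z.2 then (M.σ z.1, false) else (M.σ.symm z.1, true)
      left_inv := by rintro ⟨x, b⟩; cases b <;> simp
      right_inv := by rintro ⟨x, b⟩; cases b <;> simp },
    Equiv.prodCongr M.α Equiv.boolNot]

end LM

/-- `a` with the edge of the flag `g` twisted -/
def tw {Φ : Type} [DecidableEq Φ] (a : Fin 3 → Perm Φ) (g : Φ) : Fin 3 → Perm Φ :=
  ![a 0, a 1, a 2 * swap g (a 0 g) * swap (a 2 g) (a 0 (a 2 g))]

/-- Current graphs over `ZMod N` with one circuit system: darts `T`, reversal `ng`, rotation `ρ`,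
currents `cur`; all vertices have degree `3` and satisfy Kirchhoff's law, or have degree `1`. Every
nonzero element is the current of exactly one dart. -/
structure IsCG {T : Type} (N : ℕ) (ng ρ : Perm T) (cur : T → ZMod N) : Prop where
  ng2 : ∀ t, ng (ng t) = t
  ngne : ∀ t, ng t ≠ t
  inj : Function.Injective cur
  sur : ∀ z : ZMod N, z ≠ 0 → ∃ t, cur t = z
  nz : ∀ t, cur t ≠ 0
  neg : ∀ t, cur (ng t) = -cur t
  kcl : ∀ t, ρ t ≠ t → ρ (ρ (ρ t)) = t ∧ cur t + cur (ρ t) + cur (ρ (ρ t)) = 0

/-- the derived rotation system with one special vertex (or several) for every end -/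
def der {T : Type} [Fintype T] [DecidableEq T] {N : ℕ} [NeZero N] {ng ρ : Perm T}
    {cur : T → ZMod N} (h : IsCG N ng ρ cur) : LM (ZMod N ⊕ {t // ρ t = t}) where
  D := (ZMod N × T) ⊕ ((ZMod N × {t // ρ t = t}) × Bool)
  fin := inferInstance
  dec := inferInstance
  σ :=
    { toFun := fun z => match z with
        | Sum.inl (g, t) => if e : ρ (ng t) = ng t then Sum.inr ((g, ⟨ng t, e⟩), false)
            else Sum.inl (g, ρ (ng t))
        | Sum.inr ((g, s), false) => Sum.inl (g, s.1)
        | Sum.inr ((g, s), true) => Sum.inr ((g - cur s.1, s), true)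
      invFun := fun z => match z with
        | Sum.inl (g, t) => if e : ρ t = t then Sum.inr ((g, ⟨t, e⟩), false)
            else Sum.inl (g, ng (ρ.symm t))
        | Sum.inr ((g, s), false) => Sum.inl (g, ng s.1)
        | Sum.inr ((g, s), true) => Sum.inr ((g + cur s.1, s), true)
      left_inv := by
        rintro (⟨g, t⟩ | ⟨⟨g, s⟩, b⟩)
        · by_cases e : ρ (ng t) = ng t
          · simp [e, h.ng2]
          · simp [e, h.ng2]
        · cases b
          · simp [s.2]
          · simp
      right_inv := by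
        rintro (⟨g, t⟩ | ⟨⟨g, s⟩, b⟩)
        · by_cases e : ρ t = t
          · simp [e]
          · simp [e, h.ng2]
            intro hc
            apply e
            have h3 := congrArg ρ hc
            rw [Equiv.apply_symm_apply] at h3
            exact h3
        · cases b
          · simp [h.ng2, s.2]
          · simp }
  α :=
    { toFun := fun z => match z with
        | Sum.inl (g, t) => Sum.inl (g + cur t, ng t)
        | Sum.inr ((g, s), b) => Sum.inr ((g, s), !b)
      invFun := fun z => match z with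
        | Sum.inl (g, t) => Sum.inl (g + cur t, ng t)
        | Sum.inr ((g, s), b) => Sum.inr ((g, s), !b)
      left_inv := by
        rintro (⟨g, t⟩ | ⟨⟨g, s⟩, b⟩)
        · simp [h.neg, h.ng2]
        · simp
      right_inv := by
        rintro (⟨g, t⟩ | ⟨⟨g, s⟩, b⟩)
        · simp [h.neg, h.ng2]
        · simp }
  ℓ := fun z => match z with
    | Sum.inl (g, _) => Sum.inl g
    | Sum.inr ((g, _), false) => Sum.inl g
    | Sum.inr ((_, s), true) => Sum.inr s
  hα := by
    rintro (⟨g, t⟩ | ⟨⟨g, s⟩, b⟩)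
    · simp [h.neg, h.ng2]
    · simp
  hne := by
    rintro (⟨g, t⟩ | ⟨⟨g, s⟩, b⟩)
    · simp [h.ngne]
    · cases b <;> simp
  hℓ := by
    rintro (⟨g, t⟩ | ⟨⟨g, s⟩, b⟩)
    · by_cases e : ρ (ng t) = ng t
      · simp [e]
      · simp [e]
    · cases b <;> simp

/-! the comb-ladder -/

/-- The darts of the comb-ladder with `k` rungs and `j` pendant edges: three darts at each of the
`k + j` top vertices (`0` to the left, `1` down, `2` to the right), three darts at each of the `k`
bottom vertices (`0` to the left, `1` up, `2` to the right), one dart at the end of every pendant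
edge, and one dart at each of the four ends (top left, top right, bottom left, bottom right). -/
abbrev TT (k j : ℕ) : Type := (Fin (k + j) × Fin 3) ⊕ ((Fin k × Fin 3) ⊕ (Fin j ⊕ Fin 4))

/-- reverse dart -/
def ngf (k j : ℕ) [NeZero k] : TT k j → TT k j
  | Sum.inl (i, 0) => if h : (i : ℕ) = 0 then Sum.inr (Sum.inr (Sum.inr 0))
      else Sum.inl (⟨i - 1, by omega⟩, 2)
  | Sum.inl (i, 1) => if h : (i : ℕ) < j then Sum.inr (Sum.inr (Sum.inl ⟨i, h⟩))
      else Sum.inr (Sum.inl (⟨i - j, by omega⟩, 1))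
  | Sum.inl (i, 2) => if h : (i : ℕ) + 1 < k + j then Sum.inl (⟨i + 1, h⟩, 0)
      else Sum.inr (Sum.inr (Sum.inr 1))
  | Sum.inr (Sum.inl (i, 0)) => if h : (i : ℕ) = 0 then Sum.inr (Sum.inr (Sum.inr 2))
      else Sum.inr (Sum.inl (⟨i - 1, by omega⟩, 2))
  | Sum.inr (Sum.inl (i, 1)) => Sum.inl (⟨i + j, by omega⟩, 1)
  | Sum.inr (Sum.inl (i, 2)) => if h : (i : ℕ) + 1 < k then Sum.inr (Sum.inl (⟨i + 1, h⟩, 0))
      else Sum.inr (Sum.inr (Sum.inr 3))
  | Sum.inr (Sum.inr (Sum.inl p)) => Sum.inl (⟨p, by omega⟩, 1)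
  | Sum.inr (Sum.inr (Sum.inr 0)) => Sum.inl (⟨0, by have := NeZero.pos k; omega⟩, 0)
  | Sum.inr (Sum.inr (Sum.inr 1)) => Sum.inl (⟨k + j - 1, by have := NeZero.pos k; omega⟩, 2)
  | Sum.inr (Sum.inr (Sum.inr 2)) => Sum.inr (Sum.inl (⟨0, NeZero.pos k⟩, 0))
  | Sum.inr (Sum.inr (Sum.inr 3)) =>
      Sum.inr (Sum.inl (⟨k - 1, by have := NeZero.pos k; omega⟩, 2))

/-- rotation: the first `t` bottom vertices are reversed -/
def rot (k j t : ℕ) : Perm (TT k j) :=
  Equiv.sumCongr (Equiv.prodCongr (Equiv.refl _) (Equiv.addRight 1))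
    (Equiv.sumCongr
      (Equiv.prodShear (Equiv.refl _) (fun i => Equiv.addRight (if (i : ℕ) < t then 2 else 1)))
      (Equiv.refl _))

/-- current of the `i`-th top edge (to the right) -/
def av (k j i : ℕ) : ℤ := if i % 2 = 0 then (k + j + 1 : ℤ) + (i / 2 : ℕ)
  else (2 * (k + j) + 1 : ℤ) - (i / 2 : ℕ)

/-- current of the `i`-th bottom edge (to the left), `j ≤ i` -/
def bv (k j i : ℕ) : ℤ := av k j i + (k + 1 + (j / 2 : ℕ) : ℤ)

/-- integer currents -/
def cz (k j : ℕ) : TT k j → ℤ
  | Sum.inl (i, 0) => -av k j i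
  | Sum.inl (i, 1) => av k j i - av k j (i + 1)
  | Sum.inl (i, 2) => av k j (i + 1)
  | Sum.inr (Sum.inl (i, 0)) => bv k j (j + i)
  | Sum.inr (Sum.inl (i, 1)) => av k j (j + i + 1) - av k j (j + i)
  | Sum.inr (Sum.inl (i, 2)) => -bv k j (j + i + 1)
  | Sum.inr (Sum.inr (Sum.inl p)) => av k j (p + 1) - av k j p
  | Sum.inr (Sum.inr (Sum.inr 0)) => av k j 0
  | Sum.inr (Sum.inr (Sum.inr 1)) => -av k j (k + j)
  | Sum.inr (Sum.inr (Sum.inr 2)) => -bv k j j
  | Sum.inr (Sum.inr (Sum.inr 3)) => bv k j (j + k)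

/-- currents modulo `6k+4j+5` -/
def cc (k j : ℕ) (t : TT k j) : ZMod (6 * k + 4 * j + 5) := ((cz k j t : ℤ) : ZMod _)

end Pool.Agent.Helper24.HW
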