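import Pool.Agent.Helper24.HW.Defs

/-! Statements of the modules of the project HW (empire maps on surfaces). -/

set_option autoImplicit false

namespace Pool.Agent.Helper24.HW

open Equiv Equiv.Perm Pool.Agent.Helper24.HWPub
open Pool.Agent.Helper98.Gn (cyc)

/-! permutations -/

def ST_SIG : Prop := ∀ (X : Type) [Fintype X] [DecidableEq X] (f : Perm X),
  Perm.sign f = (-1) ^ (Nat.card X + cyc f)

def ST_CUB : Prop := ∀ (X : Type) [Fintype X] (f : Perm X),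
  ((∀ x, f (f x) = x) → (∀ x, f x ≠ x) → 2 * cyc f = Nat.card X) ∧
  ((∀ x, f (f (f x)) = x) → (∀ x, f x ≠ x) → 3 * cyc f = Nat.card X)

def ST_SUM : Prop := ∀ (X Y : Type) [Finite X] [Finite Y] (f : Perm X) (g : Perm Y),
  cyc (Perm.sumCongr f g) = cyc f + cyc g

def ST_CNJ : Prop := ∀ (X : Type) [Finite X] (f g : Perm X),
  cyc (f * g) = cyc (g * f) ∧ cyc f⁻¹ = cyc f

/-- two fixed point free involutions -/
def ST_DIH : Prop := ∀ (Φ : Type) [Finite Φ] (u v : Perm Φ), (∀ x, u (u x) = x) →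
  (∀ x, v (v x) = x) → (∀ x, u x ≠ x) → (∀ x, v x ≠ x) →
  2 * num u v = cyc (u * v) ∧ (∀ x, ¬ SameCycle (u * v) x (v x)) ∧
  ∀ x y, y ∈ MulAction.orbit (Subgroup.closure {u, v}) x ↔
    SameCycle (u * v) x y ∨ SameCycle (u * v) (v x) y

/-! labelled rotation systems -/

/-- classes with a given label after a merge -/
def ST_PTM : Prop := ∀ (D C : Type) [Finite D] [DecidableEq C] (s s' : Setoid D) (ℓ : D → C)
  (x y : D), (∀ a b, s a b → ℓ a = ℓ b) → ℓ x = ℓ y → ¬ s x y →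
  (∀ a b, s' a b ↔ s a b ∨ ((s a x ∨ s a y) ∧ (s b x ∨ s b y))) → ∀ A,
  {O : Quotient s' | ∃ z, ℓ z = A ∧ Quotient.mk _ z = O}.ncard + (if A = ℓ x then 1 else 0) =
    {O : Quotient s | ∃ z, ℓ z = A ∧ Quotient.mk _ z = O}.ncard

/-- classes with a given label in a disjoint union -/
def ST_PTU : Prop := ∀ (D D' C : Type) [Finite D] [Finite D'] (f : Perm D) (f' : Perm D')
  (ℓ : D → C) (ℓ' : D' → C) (A : C),
  {O : Quotient (SameCycle.setoid (Perm.sumCongr f f')) |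
    ∃ z, Sum.elim ℓ ℓ' z = A ∧ Quotient.mk _ z = O}.ncard =
  {O : Quotient (SameCycle.setoid f) | ∃ z, ℓ z = A ∧ Quotient.mk _ z = O}.ncard +
  {O : Quotient (SameCycle.setoid f') | ∃ z, ℓ' z = A ∧ Quotient.mk _ z = O}.ncard

def ST_PAR : Prop := ∀ (C : Type) (M : LM C), Even M.chi ∧ Even (Nat.card M.D)

def ST_PTS : Prop := ∀ (C : Type) [Fintype C] (M : LM C), ∑ A, M.pt A = cyc M.σ

def ST_UM : Prop := ∀ (C : Type) [DecidableEq C] (M P : LM C) (a : M.D) (b : P.D)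
  (h : M.ℓ a = P.ℓ b), (M.um P a b h).chi + 2 = M.chi + P.chi ∧
  (∀ A, (M.um P a b h).pt A + (if A = M.ℓ a then 1 else 0) = M.pt A + P.pt A) ∧
  (∀ A B, M.Adj A B ∨ P.Adj A B → (M.um P a b h).Adj A B) ∧
  (M.Conn → P.Conn → (M.um P a b h).Conn)

def ST_PCS : Prop := ∀ (C : Type) [DecidableEq C] (A B : C),
  ((LM.tor A).chi = 0 ∧ (LM.tor A).Conn ∧ ∀ D, (LM.tor A).pt D = if D = A then 1 else 0) ∧
  ((LM.lop A).chi = 2 ∧ (LM.lop A).Conn ∧ ∀ D, (LM.lop A).pt D = if D = A then 1 else 0) ∧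
  ((LM.edg A B).chi = 2 ∧ (LM.edg A B).Conn ∧
    ∀ D, (LM.edg A B).pt D = (if D = A then 1 else 0) + (if D = B then 1 else 0))

/-- identification of two vertices with the same label -/
def ST_M1 : Prop := ∀ (C : Type) [DecidableEq C] (M : LM C) (a b : M.D), M.ℓ a = M.ℓ b →
  ¬ SameCycle M.σ a b → ∃ h : ∀ x, M.ℓ ((M.σ * swap a b) x) = M.ℓ x,
  M.chi ≤ (M.re (M.σ * swap a b) h).chi + 2 ∧
  (∀ A, (M.re (M.σ * swap a b) h).pt A + (if A = M.ℓ a then 1 else 0) = M.pt A) ∧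
  (∀ x, M.ℓ x ≠ M.ℓ a → (M.σ * swap a b) x = M.σ x) ∧
  (M.Conn → (M.re (M.σ * swap a b) h).Conn)

/-- identification of all vertices with the same label, for the labels in `S` -/
def ST_MALL : Prop := ∀ (C : Type) [DecidableEq C] (M : LM C) (S : Finset C),
  (∀ A ∈ S, ∃ x, M.ℓ x = A) → ∃ (τ : Perm M.D) (h : ∀ x, M.ℓ (τ x) = M.ℓ x),
  (∀ x, M.ℓ x ∉ S → τ x = M.σ x) ∧ (∀ x y, M.ℓ x = M.ℓ y → M.ℓ x ∈ S → SameCycle τ x y) ∧
  M.chi ≤ (M.re τ h).chi + 2 * ∑ A ∈ S, ((M.pt A : ℤ) - 1) ∧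
  (∀ A, A ∉ S → (M.re τ h).pt A = M.pt A) ∧ ∀ A ∈ S, (M.re τ h).pt A = 1

/-- a handle -/
def ST_HAN : Prop := ∀ (C : Type) (M : LM C), Nonempty M.D →
  ∃ M' : LM C, M'.chi = M.chi - 2 ∧ M.Ext M'

def ST_DOWN : Prop := ∀ (C : Type) (M : LM C), Nonempty M.D → ∀ ε : ℤ, Even ε → ε ≤ M.chi →
  ∃ M' : LM C, M'.chi = ε ∧ M.Ext M'

/-- two trivial loops -/
def ST_LOP : Prop := ∀ (C : Type) (M : LM C), Nonempty M.D → ∃ M' : LM C, M'.chi = M.chi ∧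
  M.Ext M' ∧ ∃ x y : M'.D, M'.σ (M'.α x) = x ∧ M'.σ (M'.α y) = y ∧ x ≠ y ∧ x ≠ M'.α y

/-- one new edge -/
def ST_ADE : Prop := ∀ (C : Type) (M : LM C) (a b : M.D), M.ℓ a ≠ M.ℓ b →
  ∃ M' : LM C, M.chi ≤ M'.chi + 2 ∧ M.Ext M' ∧ M'.Adj (M.ℓ a) (M.ℓ b) ∧ M'.Adj (M.ℓ b) (M.ℓ a)

/-- many new edges -/
def ST_EDG : Prop := ∀ (C : Type) (M : LM C) (L : List (C × C)),
  (∀ p ∈ L, p.1 ≠ p.2 ∧ (∃ x, M.ℓ x = p.1) ∧ ∃ x, M.ℓ x = p.2) →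
  ∃ M' : LM C, M.chi ≤ M'.chi + 2 * L.length ∧ M.Ext M' ∧
    ∀ p ∈ L, M'.Adj p.1 p.2 ∧ M'.Adj p.2 p.1

/-! flags -/

def ST_FLG : Prop := ∀ (C : Type) (M : LM C), M.Conn → Nonempty M.D →
  IsMap M.flg ∧ euler M.flg = M.chi ∧ (∀ i f, (M.flg i f).2 = !f.2) ∧
  (∀ (c : C → ℕ), Function.Injective c → ∀ A,
    {O : MulAction.orbitRel.Quotient (Subgroup.closure {M.flg 0, M.flg 1}) (M.D × Bool) |
      ∃ f, c (M.ℓ f.1) = c A ∧ Quotient.mk _ f = O}.ncard = M.pt A) ∧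
  ∀ x, M.σ (M.α x) = x → M.flg 1 (x, false) = M.flg 2 (x, false)

def ST_TW : Prop := ∀ (Φ : Type) [Finite Φ] [DecidableEq Φ] (a : Fin 3 → Perm Φ) (g : Φ),
  IsMap a → a 1 g = a 2 g → IsMap (tw a g) ∧ euler (tw a g) = euler a - 1 ∧
  tw a g 0 = a 0 ∧ tw a g 1 = a 1 ∧
  ∀ f, tw a g 2 f = if f = g ∨ f = a 0 g ∨ f = a 2 g ∨ f = a 0 (a 2 g) then a 2 (a 0 f) else a 2 f

def ST_NON : Prop := ∀ (Φ : Type) (a a' : Fin 3 → Perm Φ) (g : Φ), (∀ f, a 0 (a 0 f) = f) →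
  (∀ f, a 0 (a 2 f) = a 2 (a 0 f)) → Orientable a →
  a 2 g ∈ MulAction.orbit (Subgroup.closure {a 0, a 1}) g → a' 0 = a 0 → a' 1 = a 1 →
  a' 2 g = a 2 (a 0 g) → ¬ Orientable a'

def ST_SURF : Prop := ∀ (C : Type) [Fintype C] (M : LM C) (m : ℕ), M.Conn → Nonempty M.D →
  (∀ A B, A ≠ B → M.Adj A B) → (∀ A, M.pt A ≤ m) → ∀ S : Surf,
  ((S.Ori ∧ S.eps = M.chi) ∨ (¬ S.Ori ∧ (S.eps = M.chi - 1 ∨ S.eps = M.chi - 2))) →
  ∃ (Φ : Type) (_ : Finite Φ) (a : Fin 3 → Perm Φ) (c : Φ → ℕ),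
    On a S ∧ IsEmpire a m c ∧ ∀ q, Colourable a c q → Fintype.card C ≤ q

/-! the derived map -/

/-- faces and number of darts -/
def ST_DFC : Prop := ∀ (T : Type) [Fintype T] [DecidableEq T] (N : ℕ) [NeZero N] (ng ρ : Perm T)
  (cur : T → ZMod N) (h : IsCG N ng ρ cur), 3 * cyc ((der h).σ * (der h).α) = Nat.card (der h).D ∧
  Nat.card (der h).D = N * (N - 1) + 2 * (N * Nat.card {t // ρ t = t})

/-- vertices of the ordinary labels -/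
def ST_DOR : Prop := ∀ (T : Type) [Fintype T] [DecidableEq T] (N : ℕ) [NeZero N] (ng ρ : Perm T)
  (cur : T → ZMod N) (h : IsCG N ng ρ cur) (g : ZMod N), (der h).pt (Sum.inl g) = cyc (ρ * ng)

/-- vertices of the special labels -/
def ST_DSP : Prop := ∀ (T : Type) [Fintype T] [DecidableEq T] (N : ℕ) [NeZero N] (ng ρ : Perm T)
  (cur : T → ZMod N) (h : IsCG N ng ρ cur) (s : {t // ρ t = t}),
  (der h).pt (Sum.inr s) = N / addOrderOf (cur s.1)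

def ST_DAD : Prop := ∀ (T : Type) [Fintype T] [DecidableEq T] (N : ℕ) [NeZero N] (ng ρ : Perm T)
  (cur : T → ZMod N) (h : IsCG N ng ρ cur),
  (∀ g g', g ≠ g' → (der h).Adj (Sum.inl g) (Sum.inl g')) ∧
  ∀ g s, (der h).Adj (Sum.inl g) (Sum.inr s) ∧ (der h).Adj (Sum.inr s) (Sum.inl g)

/-- connectedness after identification of the vertices of each special label -/
def ST_DCN : Prop := ∀ (T : Type) [Fintype T] [DecidableEq T] (N : ℕ) [NeZero N] (ng ρ : Perm T)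
  (cur : T → ZMod N) (h : IsCG N ng ρ cur) (τ : Perm (der h).D)
  (hτ : ∀ x, (der h).ℓ (τ x) = (der h).ℓ x), Nonempty {t // ρ t = t} →
  (∀ x y : T, Relation.EqvGen (fun u v => v = ρ u ∨ v = ng u) x y) →
  (∀ x g, (der h).ℓ x = Sum.inl g → τ x = (der h).σ x) →
  (∀ x y s, (der h).ℓ x = Sum.inr s → (der h).ℓ y = Sum.inr s → SameCycle τ x y) →
  ((der h).re τ hτ).Conn

def ST_CORE : Prop := ∀ (T : Type) [Fintype T] [DecidableEq T] (N : ℕ) [NeZero N]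
  (ng ρ : Perm T) (cur : T → ZMod N), IsCG N ng ρ cur → Nonempty {t // ρ t = t} →
  (∀ x y : T, Relation.EqvGen (fun u v => v = ρ u ∨ v = ng u) x y) → ∀ ε : ℤ, Even ε →
  6 * ε + N * (N - 1) + 2 * N * Nat.card {t // ρ t = t} +
    6 * (Nat.card {t // ρ t = t} * (Nat.card {t // ρ t = t} - 1)) +
    6 * ∑ s : {t // ρ t = t}, ((N / addOrderOf (cur s.1) : ℕ) : ℤ) ≤
    6 * N * cyc (ρ * ng) + 12 * Nat.card {t // ρ t = t} →
  ∃ M : LM (ZMod N ⊕ {t // ρ t = t}), M.chi = ε ∧ M.Conn ∧ Nonempty M.D ∧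
    (∀ A, M.pt A ≤ cyc (ρ * ng)) ∧ ∀ A B, A ≠ B → M.Adj A B

/-! the comb-ladder -/

def ST_NG : Prop := ∀ (k j : ℕ) [NeZero k], Function.Involutive (ngf k j) ∧
  (∀ t, ngf k j t ≠ t) ∧ ∀ t, cz k j (ngf k j t) = -cz k j t

/-- the values of the currents -/
def ST_VAL : Prop := ∀ (k j : ℕ) [NeZero k], (∀ t, cz k j t ≠ 0 ∧ |cz k j t| ≤ 3 * k + 2 * j + 2) ∧
  ∀ v : ℕ, 1 ≤ v → v ≤ 3 * k + 2 * j + 2 → ∃ t, cz k j t = v ∨ cz k j t = -v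

/-- Kirchhoff's law -/
def ST_KCL : Prop := ∀ (k j t : ℕ) [NeZero k] (x : TT k j), rot k j t x ≠ x →
  rot k j t (rot k j t (rot k j t x)) = x ∧
  cz k j x + cz k j (rot k j t x) + cz k j (rot k j t (rot k j t x)) = 0

def ST_CG : Prop := ∀ (k j t : ℕ) [NeZero k] (h : Function.Involutive (ngf k j)),
  IsCG (6 * k + 4 * j + 5) (h.toPerm (ngf k j)) (rot k j t) (cc k j)

/-- two circuits -/
def ST_C0 : Prop := ∀ (k j : ℕ) [NeZero k] (h : Function.Involutive (ngf k j)),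
  cyc (rot k j 0 * h.toPerm (ngf k j)) ≤ 2

/-- many circuits -/
def ST_CK : Prop := ∀ (k j : ℕ) [NeZero k] (h : Function.Involutive (ngf k j)),
  k ≤ cyc (rot k j k * h.toPerm (ngf k j)) + 1

def ST_CST : Prop := ∀ (k j t : ℕ) [NeZero k] (h : Function.Involutive (ngf k j)),
  cyc (rot k j (t + 1) * h.toPerm (ngf k j)) ≤ cyc (rot k j t * h.toPerm (ngf k j)) + 2

def ST_CP : Prop := ∀ (k j t : ℕ) [NeZero k] (h : Function.Involutive (ngf k j)),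
  cyc (rot k j t * h.toPerm (ngf k j)) % 2 = k % 2

/-- exactly `m` circuits -/
def ST_CM : Prop := ∀ (k j m : ℕ) [NeZero k] (h : Function.Involutive (ngf k j)), 1 ≤ m → m ≤ k →
  m % 2 = k % 2 → ∃ t, cyc (rot k j t * h.toPerm (ngf k j)) = m

def ST_CNK : Prop := ∀ (k j t : ℕ) [NeZero k] (x y : TT k j),
  Relation.EqvGen (fun u v => v = rot k j t u ∨ v = ngf k j u) x y

/-- the ends -/
def ST_FIX : Prop := ∀ (k j t : ℕ) [NeZero k], (∀ x : TT k j, rot k j t x = x ↔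
  ∃ y, x = Sum.inr (Sum.inr y)) ∧ Nat.card {x : TT k j // rot k j t x = x} = j + 4 ∧
  ∀ f : TT k j → ℕ, ∑ s : {x : TT k j // rot k j t x = x}, f s.1 =
    ∑ y : Fin j ⊕ Fin 4, f (Sum.inr (Sum.inr y))

def ST_GCD : Prop := ∀ (k j : ℕ) [NeZero k], j ≤ 11 → ∑ y : Fin j ⊕ Fin 4,
  (6 * k + 4 * j + 5) / addOrderOf (cc k j (Sum.inr (Sum.inr y))) ≤ 327

def ST_KK : Prop := ∀ (k j m : ℕ), 0 < k → 1 ≤ m → m ≤ k → m % 2 = k % 2 → j ≤ 11 → ∀ ε : ℤ,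
  Even ε → ε ≤ (6 * k + 4 * j + 5) * (m - k - j - 2) + 2 * (j + 4) - 327 - (j + 4) * (j + 3) →
  ∃ (C : Type) (_ : Fintype C) (M : LM C), Fintype.card C = 6 * k + 5 * j + 9 ∧ M.chi = ε ∧
    M.Conn ∧ Nonempty M.D ∧ (∀ A, M.pt A ≤ m) ∧ ∀ A B, A ≠ B → M.Adj A B

/-! numbers -/

def ST_NUM : Prop := ∀ (S : Surf) (m : ℕ), 1 ≤ m →
  (S.eps : ℝ) + 15 * m + 500 ≤ m * heawood S m - heawood S m * (heawood S m - 1) / 6 →
  ∃ k j : ℕ, 0 < k ∧ j ≤ 11 ∧ heawood S m = 6 * k + 5 * j + 9 ∧ m ≤ k ∧ m % 2 = k % 2 ∧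
    S.eps + 2 ≤ (6 * k + 4 * j + 5) * ((m : ℤ) - k - j - 2) + 2 * (j + 4) - 327 -
      (j + 4) * (j + 3)

def ST_MAIN : Prop := ∀ (S : Surf) (m : ℕ), 1 ≤ m →
  (S.eps : ℝ) + 15 * m + 500 ≤ m * heawood S m - heawood S m * (heawood S m - 1) / 6 →
  Necessary S m

def ST_DEN : Prop := ∀ P : Surf → ℕ → Prop, (∀ (S : Surf) (m : ℕ), 1 ≤ m →
    (S.eps : ℝ) + 15 * m + 500 ≤ m * heawood S m - heawood S m * (heawood S m - 1) / 6 → P S m) →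
  ∃ K : ℝ, ∀ m G : ℕ, 1 ≤ m →
    ({g : ℕ | g < G ∧ ¬ P (Surf.ori g) m}.ncard : ℝ) ≤ K * m * (m + Real.sqrt G) ∧
    ({g : ℕ | g < G ∧ ¬ P (Surf.non g) m}.ncard : ℝ) ≤ K * m * (m + Real.sqrt G)

end Pool.Agent.Helper24.HW
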